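import Pool.Agent.L5helper83.MAEx

/-!
# The local complex Monge-Ampere flow cannot be started from a function with a positive Lelong number

Let `Ω ⊂ ℂⁿ` be a bounded strictly pseudoconvex domain with smooth boundary, `u₀` plurisubharmonic near the closure of
`Ω`.  If `u₀` has a positive Lelong number at a point `a` of `Ω`, then for no `T` and no boundary data `φ` does the flow
`∂_t u = log det (u_{j k̄})`, `u = φ` on the boundary, `u(z,t) → u₀(z)`, have a solution on `Ω × (0,T)`.

Idea of the proof.  The functions `v_ε(z,t) = (g - n t) log (|z - a|² + ε²) + C t + K` are supersolutions for `t < g / n`,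
because `det (∂_j ∂_k̄ log (|z|² + ε²)) = ε² / (|z|² + ε²)^(n+1)`.  The pointwise convergence `u(z,t) → u₀(z)`,
`u₀ ≤ γ log |z - a| + C`, gives by Fatou's lemma and the sub-mean value property on balls the bound
`u(z,τ) ≤ κ log ε + C'` on `|z - a| ≤ ε` for some arbitrarily small `τ = τ(ε)`, with `κ > 0` and `C'` independent of `ε`;
by the maximum principle on `ε ≤ |z - a| ≤ R` then `u(·,τ) ≤ v_ε(·,0)` on the closure of `Ω`.  The comparison principle
gives `u(a,t) ≤ (κ / 4) log ε² + C''` for a fixed small `t > 0` and all small `ε`, which is absurd.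
-/

set_option autoImplicit false

open Set Filter Topology Metric

namespace Pool.Agent.Results.MP_8f0dee_an.NoSmoothFlow

open Pool.Agent.L5helper83.MA

/-- Let `n ≥ 1`.
1. If the initial datum `u₀` has a positive Lelong number at some point of `Ω`, then for all `T` and `φ` the flow has no
solution.
2. On every bounded strictly pseudoconvex domain `Ω` with smooth boundary and for every `T > 0` there are a
plurisubharmonic `u₀` (defined on all of `ℂⁿ`) and smooth boundary data `φ` for which the flow has no solution.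
3. The unit ball is such a domain `Ω`. -/
theorem result (n : ℕ) (hn : 0 < n) :
    (∀ (Ω : Set (Cn n)) (T : ℝ) (u₀ : Cn n → EReal) (φ : Cn n → ℝ → ℝ), IsFlowData Ω T u₀ φ →
      (∃ a ∈ Ω, HasPositiveLelongNumber u₀ a) → ¬ ∃ u, IsFlowSolution Ω T u₀ φ u) ∧
    (∀ (Ω : Set (Cn n)) (T : ℝ), IsStrictlyPseudoconvexDomain Ω → 0 < T →
      ∃ (u₀ : Cn n → EReal) (φ : Cn n → ℝ → ℝ), IsFlowData Ω T u₀ φ ∧ ¬ ∃ u, IsFlowSolution Ω T u₀ φ u) ∧
    IsStrictlyPseudoconvexDomain (ball (0 : Cn n) 1) := by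
  have h1 : ∀ (Ω : Set (Cn n)) (T : ℝ) (u₀ : Cn n → EReal) (φ : Cn n → ℝ → ℝ), IsFlowData Ω T u₀ φ →
      (∃ a ∈ Ω, HasPositiveLelongNumber u₀ a) → ¬ ∃ u, IsFlowSolution Ω T u₀ φ u := by
    rintro Ω T u₀ φ hd ⟨a, ha, hL⟩ ⟨u, hu⟩
    exact no_solution hn hd.domain.1 hd.domain.2.2.1 hd.pos hd.smooth.continuousOn hu ha hL
  refine ⟨h1, ?_, unitBall_isStrictlyPseudoconvexDomain n hn⟩
  intro Ω T hΩ hT
  obtain ⟨u₀, φ, hd, hL⟩ := exists_data hn hΩ hT
  exact ⟨u₀, φ, hd, h1 Ω T u₀ φ hd hL⟩

end Pool.Agent.Results.MP_8f0dee_an.NoSmoothFlow
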